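import Pool.Agent.U163.SV.Runs
import Pool.Agent.R498.MP.PU9
import Pool.Agent.Helper32K9.Str.Prop

/-!
# Strings of consecutive primes following numbers with almost prime values

The number of the places and the proportion of the patterns depend on the number of the primes only.
-/

set_option autoImplicit false

namespace Pool.Agent.U163.SV

open Finset Filter Polynomial
open Pool.Agent.R498.MP

/-- A polynomial with coefficients at most `N ^ A` has values at most `N ^ (A + 2 D + 1)` on `[-2 N, 2 N]`. -/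
theorem eval_bound {f : ℤ[X]} {D A N : ℕ} (hD : f.natDegree ≤ D) (hN : D + 2 ≤ N)
    (hc : ∀ i, |f.coeff i| ≤ (N : ℤ) ^ A) {z : ℤ} (hz : |z| ≤ 2 * N) :
    |f.eval z| ≤ (N : ℤ) ^ (A + 2 * D + 1) := by
  have hN2 : (2 : ℤ) ≤ N := by exact_mod_cast (by omega : 2 ≤ N)
  rw [eval_eq_sum_range' (Nat.lt_succ_of_le hD)]
  have h1 : ∀ i ∈ range (D + 1), |f.coeff i * z ^ i| ≤ (N : ℤ) ^ A * (2 * N) ^ D := by
    intro i hi
    rw [mem_range] at hi
    rw [abs_mul, abs_pow]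
    have h2 : |z| ^ i ≤ (2 * (N : ℤ)) ^ D :=
      (pow_le_pow_left₀ (abs_nonneg z) hz i).trans (pow_le_pow_right₀ (by linarith) (by omega))
    exact mul_le_mul (hc i) h2 (by positivity) (by positivity)
  have h3 : (2 * (N : ℤ)) ^ D ≤ (N : ℤ) ^ (2 * D) := by
    rw [pow_mul]
    exact pow_le_pow_left₀ (by positivity) (by nlinarith) D
  calc |∑ i ∈ range (D + 1), f.coeff i * z ^ i| ≤ ∑ i ∈ range (D + 1), |f.coeff i * z ^ i| :=
        abs_sum_le_sum_abs _ _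
    _ ≤ ∑ _i ∈ range (D + 1), (N : ℤ) ^ A * (2 * N) ^ D := Finset.sum_le_sum h1
    _ = (D + 1) * ((N : ℤ) ^ A * (2 * N) ^ D) := by
        rw [sum_const, card_range, nsmul_eq_mul]
        push_cast
        ring
    _ ≤ N * ((N : ℤ) ^ A * (N : ℤ) ^ (2 * D)) := by
        have h4 : ((D : ℤ) + 1) ≤ N := by exact_mod_cast (by omega : D + 1 ≤ N)
        gcongr
    _ = (N : ℤ) ^ (A + 2 * D + 1) := by ring

/-- A value which is rough and not too large is almost prime. -/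
theorem apz_of_rough {N A r : ℕ} {δ : ℝ} (hδ : 0 < δ) (hN : 3 ≤ N) (hN3 : (3 : ℝ) ≤ (N : ℝ) ^ δ)
    (hr : (A : ℝ) / δ ≤ r) {n : ℤ} (hn : |n| ≤ (N : ℤ) ^ A)
    (h : ∀ p : ℕ, p.Prime → (p : ℤ) ∣ n → (N : ℝ) ^ δ ≤ p) : APZ r ((N : ℝ) ^ δ) n := by
  have hne : n ≠ 0 := by
    intro h0
    have h6 := h 2 Nat.prime_two (by rw [h0]; exact dvd_zero _)
    push_cast at h6
    linarith
  refine ⟨hne, ?_, h⟩
  have h10 : (n.natAbs : ℝ) ≤ (N : ℝ) ^ ((A : ℕ) : ℝ) := by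
    rw [Real.rpow_natCast]
    have h5 : ((n.natAbs : ℕ) : ℤ) ≤ ((N ^ A : ℕ) : ℤ) := by
      rw [Int.natCast_natAbs]
      push_cast
      exact hn
    have h6 : n.natAbs ≤ N ^ A := by exact_mod_cast h5
    exact_mod_cast h6
  have h13 := Pool.Agent.R498.MT.omega_le N n.natAbs δ ((A : ℕ) : ℝ) (by omega) hδ
    (by rwa [Int.natAbs_ne_zero]) (fun p hp hpd => h p hp (Int.natCast_dvd.2 hpd)) h10
  exact_mod_cast h13.trans hr

/-- The translated system is a system. -/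
theorem sys_shift {f g : ℤ[X]} {D q k W s₀ : ℕ} (hW : W ∣ s₀)
    (hWp : ∀ p : ℕ, p.Prime → p ≤ (2 * D + 1 + q) * 2 ^ k + 1 → p ∣ W) (hf : f.natDegree ≤ D)
    (hg : g.natDegree ≤ D)
    (hadm : ∀ p : ℕ, p.Prime → ∃ n : ℤ, ¬ (p : ℤ) ∣ n * f.eval n * g.eval n) :
    SysW (2 * D + 1 + q) (fun n => (X * g * f.comp (X - C (s₀ : ℤ)) : ℤ[X]).eval n) := by
  have hdeg : (X * g * f.comp (X - C (s₀ : ℤ)) : ℤ[X]).natDegree ≤ 2 * D + 1 := by
    refine natDegree_mul_le.trans ?_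
    have h1 : (X * g : ℤ[X]).natDegree ≤ 1 + D := by
      refine natDegree_mul_le.trans ?_
      rw [natDegree_X]
      omega
    have h2 : (f.comp (X - C (s₀ : ℤ))).natDegree ≤ D := by
      rw [natDegree_comp, natDegree_X_sub_C, mul_one]
      exact hf
    omega
  refine sysW_poly _ _ (by omega) fun p hp => ?_
  have : Fact p.Prime := ⟨hp⟩
  obtain ⟨n, hn⟩ := hadm p hp
  have hpZ := Nat.prime_iff_prime_int.1 hp
  by_cases hpW : p ∣ W
  · refine ⟨n, fun h => hn ?_⟩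
    rw [eval_mul, eval_mul, eval_X, eval_comp, eval_sub, eval_X, eval_C] at h
    have hps : (p : ℤ) ∣ (s₀ : ℤ) := by exact_mod_cast hpW.trans hW
    have h1 : (p : ℤ) ∣ f.eval (n - s₀) - f.eval n := by
      have h2 := sub_dvd_eval_sub (n - s₀) n f
      have h3 : n - (s₀ : ℤ) - n = -(s₀ : ℤ) := by ring
      rw [h3, neg_dvd] at h2
      exact hps.trans h2
    rcases hpZ.dvd_or_dvd h with h2 | h2
    · rcases hpZ.dvd_or_dvd h2 with h3 | h3
      · exact (h3.mul_right _).mul_right _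
      · exact h3.mul_left _
    · have h3 : (p : ℤ) ∣ f.eval n := by
        have := dvd_sub h2 h1
        rwa [sub_sub_cancel] at this
      exact (h3.mul_left _).mul_right _
  · have hpbig : (2 * D + 1 + q) * 2 ^ k + 1 < p := by
      by_contra hcon
      exact hpW (hWp p hp (by omega))
    have hpD : 2 * D + 1 < p := by
      have : 2 * D + 1 + q ≤ (2 * D + 1 + q) * 2 ^ k := Nat.le_mul_of_pos_right _ (by positivity)
      omega
    obtain ⟨Q, hQ⟩ : ∃ Q : (ZMod p)[X],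
        Q = (X * g * f.comp (X - C (s₀ : ℤ)) : ℤ[X]).map (Int.castRingHom (ZMod p)) := ⟨_, rfl⟩
    have hev : ∀ P : ℤ[X], ∀ x : ℤ, (P.map (Int.castRingHom (ZMod p))).eval (x : ZMod p) =
        ((P.eval x : ℤ) : ZMod p) := by
      intro P x
      simp
    have hne : ∀ P : ℤ[X], (∃ n : ℤ, ¬ (p : ℤ) ∣ P.eval n) → P.map (Int.castRingHom (ZMod p)) ≠ 0 := by
      rintro P ⟨n, hn⟩ h
      apply hn
      rw [← ZMod.intCast_zmod_eq_zero_iff_dvd, ← hev P n, h, eval_zero]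
    have hQ0 : Q ≠ 0 := by
      rw [hQ, Polynomial.map_mul, Polynomial.map_mul]
      refine mul_ne_zero (mul_ne_zero (hne X ⟨1, ?_⟩) (hne g ⟨n, ?_⟩))
        (hne (f.comp (X - C (s₀ : ℤ))) ⟨n + s₀, ?_⟩)
      · rw [eval_X]
        intro h
        have := Int.le_of_dvd one_pos h
        have := hp.one_lt
        omega
      · exact fun h => hn (h.mul_left _)
      · rw [eval_comp, eval_sub, eval_X, eval_C, add_sub_cancel_right]
        exact fun h => hn ((h.mul_left _).mul_right _)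
    have hQd : Q.natDegree < p := by
      rw [hQ]
      exact (natDegree_map_le.trans hdeg).trans_lt hpD
    obtain ⟨x, hx⟩ := Polynomial.exists_eval_ne_zero_of_natDegree_lt_card Q hQ0 (by
      rw [Cardinal.mk_fintype, ZMod.card]
      exact_mod_cast hQd)
    refine ⟨(x.val : ℤ), fun h => hx ?_⟩
    rw [← ZMod.intCast_zmod_eq_zero_iff_dvd, ← hev] at h
    rw [hQ]
    simpa using h

/-- **Strings of primes following numbers with almost prime values.** -/
theorem stringsV (m : ℕ) (hm : 1 ≤ m) (D q : ℕ) (hq : Squarefree q) :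
    ∃ (W B : ℕ) (δ : ℝ), 0 < W ∧ 0 < δ ∧ ∀ A : ℕ, ∃ r : ℕ, ∀ S : Finset ℕ,
      S.card = 2 ^ (141557760 * m) → (∀ t ∈ S, W ∣ t) →
      ∀ᶠ N : ℕ in atTop, ∀ f g : ℤ[X], f.natDegree ≤ D → g.natDegree ≤ D →
      (∀ i, |f.coeff i| ≤ (N : ℤ) ^ A) → (∀ i, |g.coeff i| ≤ (N : ℤ) ^ A) →
      (∀ p : ℕ, p.Prime → ∃ n : ℤ, ¬ (p : ℤ) ∣ n * f.eval n * g.eval n) →
      (∀ z : ℤ, z < 0 → -(2 * ((S.sup id : ℕ) : ℤ)) ≤ z → f.eval z ≠ 0) →
      (∀ z : ℤ, z ≠ 0 → |z| ≤ ((S.sup id : ℕ) : ℤ) → g.eval z ≠ 0) →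
      ∀ a : ℕ, (∀ p : ℕ, p.Prime → p ∣ q → ¬ (p : ℤ) ∣ (a : ℤ) * f.eval (a : ℤ) * g.eval (a : ℤ)) →
      ∃ H ⊆ S, m ≤ H.card ∧ ∃ T : Finset ℕ, (N : ℝ) ≤ Real.log N ^ B * T.card ∧
        ∀ x ∈ T, N < x ∧ x + S.sup id ≤ 2 * N ∧ (∀ h ∈ H, (x + h).Prime) ∧
          (∀ y, 1 ≤ y → y ≤ S.sup id → (x + y).Prime → y ∈ H) ∧ x ≡ a [MOD q] ∧
          APZ r ((N : ℝ) ^ δ) (f.eval (x : ℤ)) ∧
          ∀ h ∈ S, APZ r ((N : ℝ) ^ δ) (g.eval ((x + h : ℕ) : ℤ)) := by
  classical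
  obtain ⟨k, hk0, hruns⟩ := runsV (m - 1)
  have hk : k = 141557760 * m := by
    rw [hk0]
    congr 1
    omega
  clear hk0
  obtain ⟨W, B, δ, hW0, hWsq, hWp, hδ, hmain⟩ := hruns (2 * D + 1 + q) (by omega) q hq (by omega)
  have hqW : q ∣ W := by
    have h1 : ∏ p ∈ q.primeFactors, p ∣ W := by
      apply Finset.prod_primes_dvd
      · intro p hp
        exact (Nat.prime_of_mem_primeFactors hp).prime
      · intro p hp
        apply hWp p (Nat.prime_of_mem_primeFactors hp)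
        have h2 : p ≤ q := Nat.le_of_mem_primeFactors hp
        have h3 : 2 * D + 1 + q ≤ (2 * D + 1 + q) * 2 ^ k := Nat.le_mul_of_pos_right _ (by positivity)
        omega
    rwa [Nat.prod_primeFactors_of_squarefree hq] at h1
  refine ⟨W, B, δ, hW0, hδ, fun A => ?_⟩
  obtain ⟨A', hA'⟩ : ∃ A', A' = A + 2 * D + 1 := ⟨_, rfl⟩
  obtain ⟨r, hr⟩ := exists_nat_ge ((A' : ℝ) / δ)
  refine ⟨r, fun S hS hSW => ?_⟩
  rw [← hk] at hS
  have hne : S.Nonempty := by
    rw [← Finset.card_pos, hS]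
    positivity
  obtain ⟨s₀, hs₀⟩ : ∃ s₀, s₀ = S.sup id := ⟨_, rfl⟩
  have hs₀S : s₀ ∈ S := by
    obtain ⟨x, hx, hx2⟩ := S.exists_mem_eq_sup hne id
    rw [hs₀, hx2]
    exact hx
  have hle : ∀ h ∈ S, h ≤ s₀ := fun h hh => by
    rw [hs₀]
    exact Finset.le_sup (f := id) hh
  rw [← hs₀]
  have hev2 : ∀ᶠ N : ℕ in atTop, (3 : ℝ) ≤ (N : ℝ) ^ δ :=
    ((tendsto_rpow_atTop hδ).comp tendsto_natCast_atTop_atTop).eventually_ge_atTop _
  filter_upwards [hmain S hS hSW (Finset.Icc 1 s₀) s₀ (1 + A' + A'), hev2,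
    eventually_ge_atTop (s₀ + D + 3)] with N hN hN3 hNS
  intro f g hfD hgD hfc hgc hadm hfz hgz a ha
  have hev : ∀ n : ℤ, (X * g * f.comp (X - C (s₀ : ℤ)) : ℤ[X]).eval n =
      n * g.eval n * f.eval (n - s₀) := fun n => by
    rw [eval_mul, eval_mul, eval_X, eval_comp, eval_sub, eval_X, eval_C]
  have hfb : ∀ z : ℤ, |z| ≤ 2 * N → |f.eval z| ≤ (N : ℤ) ^ A' := fun z hz => by
    rw [hA']
    exact eval_bound hfD (by omega) hfc hz
  have hgb : ∀ z : ℤ, |z| ≤ 2 * N → |g.eval z| ≤ (N : ℤ) ^ A' := fun z hz => by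
    rw [hA']
    exact eval_bound hgD (by omega) hgc hz
  obtain ⟨H, hH, hHm, T, hT, hmem⟩ := hN (fun n => (X * g * f.comp (X - C (s₀ : ℤ)) : ℤ[X]).eval n)
    (sys_shift (hSW s₀ hs₀S) hWp hfD hgD hadm)
    (fun p _ n hd => by
      rw [hev]
      exact (hd.mul_right _).mul_right _) (by
      intro h hh y hy hyh
      rw [hev]
      rw [mem_Icc] at hy
      have hhs := hle h hh
      have h1 : (h : ℤ) - y ≠ 0 := by
        intro h2
        apply hyh
        have : (h : ℤ) = y := by linarith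
        exact_mod_cast this.symm
      have h2 : |(h : ℤ) - y| ≤ s₀ := by
        rw [abs_le]
        constructor <;> omega
      refine ⟨mul_ne_zero (mul_ne_zero h1 (hgz _ h1 h2)) (hfz _ (by omega) (by omega)), ?_⟩
      have h4 : |((h : ℤ) - y) * g.eval ((h : ℤ) - y) * f.eval ((h : ℤ) - y - s₀)| ≤
          (N : ℤ) ^ (1 + A' + A') := by
        rw [abs_mul, abs_mul, pow_add, pow_add, pow_one]
        have h5 : |(h : ℤ) - y| ≤ N := h2.trans (by exact_mod_cast (by omega : s₀ ≤ N))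
        have h6 : |(h : ℤ) - y - s₀| ≤ 2 * N := by
          rw [abs_le]
          constructor <;> omega
        have h7 := hgb ((h : ℤ) - y) (by linarith [abs_nonneg ((h : ℤ) - y)])
        have h8 := hfb _ h6
        gcongr
      have h5 : (((((h : ℤ) - y) * g.eval ((h : ℤ) - y) * f.eval ((h : ℤ) - y - s₀)).natAbs : ℕ) : ℤ) ≤
          ((N ^ (1 + A' + A') : ℕ) : ℤ) := by
        rw [Int.natCast_natAbs]
        push_cast
        exact h4
      exact_mod_cast h5) a (fun p hp hpq h => by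
      rw [hev] at h
      have hpZ := Nat.prime_iff_prime_int.1 hp
      have hps : (p : ℤ) ∣ (s₀ : ℤ) := by exact_mod_cast (hpq.trans hqW).trans (hSW s₀ hs₀S)
      have h1 : (p : ℤ) ∣ f.eval ((a : ℤ) - s₀) - f.eval (a : ℤ) := by
        have h2 := sub_dvd_eval_sub ((a : ℤ) - s₀) a f
        have h3 : (a : ℤ) - (s₀ : ℤ) - a = -(s₀ : ℤ) := by ring
        rw [h3, neg_dvd] at h2
        exact hps.trans h2
      apply ha p hp hpq
      rcases hpZ.dvd_or_dvd h with h2 | h2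
      · rcases hpZ.dvd_or_dvd h2 with h3 | h3
        · exact (h3.mul_right _).mul_right _
        · exact h3.mul_left _
      · have h3 : (p : ℤ) ∣ f.eval (a : ℤ) := by
          have := dvd_sub h2 h1
          rwa [sub_sub_cancel] at this
        exact (h3.mul_left _).mul_right _)
  have hmH : m ≤ H.card := by omega
  refine ⟨H, hH, hmH, T, hT, fun x hx => ?_⟩
  obtain ⟨h1, h2, h3, h4, h5⟩ := hmem x hx
  refine ⟨h1, h2, fun h hh => (h3 h hh).1, fun y hy1 hys hyp => ?_, ?_, ?_, fun h hh => ?_⟩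
  · by_contra hcon
    exact h5 y (Finset.mem_Icc.2 ⟨hy1, hys⟩) hcon hyp
  · obtain ⟨h, hh⟩ : H.Nonempty := Finset.card_pos.1 (by omega)
    have h6 := (h3 h hh).2
    have h7 : h ≡ 0 [MOD q] := (Nat.modEq_zero_iff_dvd).2 (hqW.trans (hSW h (hH hh)))
    exact ((h7.add_left x).symm.trans h6 : x + 0 ≡ a [MOD q])
  · refine apz_of_rough hδ (by omega) hN3 hr (hfb _ ?_) fun p hp hpd => ?_
    · rw [abs_of_nonneg (by positivity)]
      exact_mod_cast (by omega : x ≤ 2 * N)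
    · apply h4 s₀ hs₀S p hp
      show (p : ℤ) ∣ (X * g * f.comp (X - C (s₀ : ℤ)) : ℤ[X]).eval ((x + s₀ : ℕ) : ℤ)
      rw [hev]
      push_cast
      rw [add_sub_cancel_right]
      exact hpd.mul_left _
  · have hhs := hle h hh
    refine apz_of_rough hδ (by omega) hN3 hr (hgb _ ?_) fun p hp hpd => ?_
    · rw [abs_of_nonneg (by positivity)]
      exact_mod_cast (by omega : x + h ≤ 2 * N)
    · apply h4 h hh p hp
      show (p : ℤ) ∣ (X * g * f.comp (X - C (s₀ : ℤ)) : ℤ[X]).eval ((x + h : ℕ) : ℤ)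
      rw [hev]
      exact (hpd.mul_left _).mul_right _

end Pool.Agent.U163.SV
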