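import Pool.Agent.U163.SV.Core

/-!
Strings of primes with rough values `F (n + h)` at all places `h` of a set of `2 ^ k` multiples of `W`,
where `k` depends on the number of the primes only.
-/

set_option autoImplicit false
set_option linter.unusedSectionVars false

namespace Pool.Agent.U163.SV

open Finset Filter Polynomial
open Pool.Agent.R498.MP
open Pool.Agent.R498.MT
open Pool.Agent.Y677.RSZ (rt Sys rhoT per_mod ev_log V eng_all)
open Pool.Agent.TH423.SH (PS PIj)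
open Pool.Agent.W23.DC
open Pool.Agent.Y882
open Pool.Agent.Y882.PX
open Pool.Agent.Y882.KW

open Classical in
/-- **Strings of primes in a residue class with rough values, uniformly in the system; the number of the
places depends on the number of the primes only.** -/
theorem runsV (m : ℕ) : ∃ k : ℕ, k = 141557760 * (m + 1) ∧ ∀ g : ℕ, 1 ≤ g →
    ∀ q : ℕ, Squarefree q → q ≤ g →
    ∃ (W B : ℕ) (δ : ℝ), 0 < W ∧ Squarefree W ∧ (∀ p : ℕ, p.Prime → p ≤ g * 2 ^ k + 1 → p ∣ W) ∧ 0 < δ ∧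
      ∀ HH : Finset ℕ, HH.card = 2 ^ k → (∀ h ∈ HH, W ∣ h) → ∀ E : Finset ℕ, ∀ C₀ A : ℕ,
      ∀ᶠ N : ℕ in atTop, ∀ F : ℤ → ℤ, SysW g F →
      (∀ p : ℕ, p.Prime → ∀ n : ℤ, (p : ℤ) ∣ n → (p : ℤ) ∣ F n) →
      (∀ h ∈ HH, ∀ y ∈ E, y ≠ h → F ((h : ℤ) - y) ≠ 0 ∧ (F ((h : ℤ) - y)).natAbs ≤ N ^ A) →
      ∀ a₀ : ℕ, (∀ p : ℕ, p.Prime → p ∣ q → ¬ (p : ℤ) ∣ F (a₀ : ℤ)) →
      ∃ H ⊆ HH, m < H.card ∧ ∃ T : Finset ℕ, (N : ℝ) ≤ Real.log N ^ B * T.card ∧
        ∀ n ∈ T, N < n ∧ n + C₀ ≤ 2 * N ∧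
          (∀ h ∈ H, (n + h).Prime ∧ n + h ≡ a₀ [MOD q]) ∧
          (∀ h ∈ HH, ∀ p : ℕ, p.Prime → (p : ℤ) ∣ F ((n + h : ℕ) : ℤ) → (N : ℝ) ^ δ ≤ p) ∧
          ∀ y ∈ E, y ∉ H → ¬ (n + y).Prime := by
  obtain ⟨k, hk0, hcoreV⟩ := coreV m
  refine ⟨k, hk0, fun g hg1 q hq hqg => ?_⟩
  clear hk0
  obtain ⟨W, hW0, hWsq, hWp, hgW, ε₁, c, hε, hε24, hc, hcore⟩ := hcoreV g hg1
  have hW2 : 2 ≤ W := by
    have h1 : 2 ∣ W := hWp 2 Nat.prime_two (by
      have : 1 ≤ g * 2 ^ k := Nat.mul_pos hg1 (by positivity)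
      omega)
    exact Nat.le_of_dvd hW0 h1
  refine ⟨W, 2 * (g * 2 ^ k) + 2, ε₁, hW0, hWsq, hWp, hε, ?_⟩
  intro HH hHH hHW E C₀ A
  obtain ⟨r, hr0⟩ : ∃ r : ℕ, r = 0 := ⟨_, rfl⟩
  have hrW : r < W := by omega
  obtain ⟨t, ht, hmem, hall⟩ : ∃ t : Fin (2 ^ k) → ℕ, Function.Injective t ∧
      (∀ i, W * t i + r ∈ HH) ∧ ∀ h ∈ HH, ∃ i, h = W * t i + r := by
    refine ⟨fun i => HH.orderEmbOfFin hHH i / W, ?_, ?_, ?_⟩
    · intro i j hij
      have h1 := hHW _ (HH.orderEmbOfFin_mem hHH i)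
      have h2 := hHW _ (HH.orderEmbOfFin_mem hHH j)
      have h3 : HH.orderEmbOfFin hHH i / W = HH.orderEmbOfFin hHH j / W := hij
      apply (HH.orderEmbOfFin hHH).injective
      rw [← Nat.mul_div_cancel' h1, ← Nat.mul_div_cancel' h2, h3]
    · intro i
      have h1 := hHW _ (HH.orderEmbOfFin_mem hHH i)
      show W * (HH.orderEmbOfFin hHH i / W) + r ∈ HH
      rw [Nat.mul_div_cancel' h1, hr0, add_zero]
      exact HH.orderEmbOfFin_mem hHH i
    · intro h hh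
      have h1 : h ∈ Set.range (HH.orderEmbOfFin hHH) := by
        rw [Finset.range_orderEmbOfFin]
        exact hh
      obtain ⟨i, rfl⟩ := h1
      refine ⟨i, ?_⟩
      show HH.orderEmbOfFin hHH i = W * (HH.orderEmbOfFin hHH i / W) + r
      rw [Nat.mul_div_cancel' (hHW _ hh), hr0, add_zero]
  have hqW : q ∣ W := by
    have h1 : ∏ p ∈ q.primeFactors, p ∣ W := by
      apply Finset.prod_primes_dvd
      · intro p hp
        exact (Nat.prime_of_mem_primeFactors hp).prime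
      · intro p hp
        apply hWp p (Nat.prime_of_mem_primeFactors hp)
        have h2 : p ≤ q := Nat.le_of_mem_primeFactors hp
        have h3 : g ≤ g * 2 ^ k := Nat.le_mul_of_pos_right _ (by positivity)
        omega
    rwa [Nat.prod_primeFactors_of_squarefree hq] at h1
  obtain ⟨E', hE'⟩ : ∃ E', E' = E.filter (fun y => ∀ i, W * t i + r ≠ y) := ⟨_, rfl⟩
  have hc1 : ∀ᶠ N : ℕ in atTop, ∀ b ∈ Finset.range (2 * W), ∀ F : ℤ → ℤ, SysW g F →
        (∀ p : ℕ, p.Prime → ∀ n : ℤ, (p : ℤ) ∣ n → (p : ℤ) ∣ F n) →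
        (∀ p : ℕ, p.Prime → p ∣ W → ¬ (p : ℤ) ∣ F b) → ∀ M L z : ℕ, Win W N M L →
        (z : ℝ) < (N : ℝ) ^ ε₁ → (N : ℝ) ^ ε₁ ≤ z + 1 →
        c * (L * Vp F W b z t) ≤ ((gp F N ε₁ W b t m M L).card : ℝ) ∧
        0 < Vp F W b z t ∧ 1 ≤ Real.log N ^ (2 * (g * 2 ^ k) + 1) * Vp F W b z t := by
    rw [Finset.eventually_all]
    intro b _
    obtain ⟨Y₀, hY₀⟩ := (hcore t ht b).1
    filter_upwards [eventually_ge_atTop Y₀] with N hN F h1 h2 h3
    exact hY₀ F h1 h2 h3 N hN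
  have hc2 : ∀ᶠ N : ℕ in atTop, ∀ b ∈ Finset.range (2 * W), ∀ y ∈ E', ∀ F : ℤ → ℤ, SysW g F →
        (∀ j, F (((W * t j + b : ℕ) : ℤ) - ((b - r + y : ℕ) : ℤ)) ≠ 0 ∧
          (F (((W * t j + b : ℕ) : ℤ) - ((b - r + y : ℕ) : ℤ))).natAbs ≤ N ^ A) →
        ∀ M L z : ℕ, Win W N M L → (z : ℝ) < (N : ℝ) ^ ε₁ →
        0 < Vp F W b z t → 1 ≤ Real.log N ^ (2 * (g * 2 ^ k) + 1) * Vp F W b z t →
        ∀ s : Finset ℕ,
        (∀ K ∈ s, K ∈ Ioc M (M + L) ∧ (W * K + (b - r + y)).Prime ∧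
          ∀ p ∈ PS W z, ∀ i, ¬ (p : ℤ) ∣ F ((W * (K + t i) + b : ℕ) : ℤ)) →
        (s.card : ℝ) ≤ c / (2 * (E'.card + 1)) * (L * Vp F W b z t) := by
    rw [Finset.eventually_all]
    intro b _
    rw [Finset.eventually_all]
    intro y _
    obtain ⟨Y₀, hY₀⟩ := (hcore t ht b).2 (b - r + y) (c / (2 * (E'.card + 1))) (by positivity) A
    filter_upwards [eventually_ge_atTop Y₀] with N hN F h1 h2
    exact hY₀ F h1 N hN h2
  have hlog : ∀ᶠ N : ℕ in atTop, 16 * W * 2 ^ 2 ^ k / c ≤ Real.log (N : ℝ) :=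
    (Real.tendsto_log_atTop.comp tendsto_natCast_atTop_atTop).eventually_ge_atTop _
  filter_upwards [hc1, hc2, hlog, numsE W r (2 * W) 0 0 0 0 C₀ hW2 hrW] with N hN1 hN2 hN3 hN4
  obtain ⟨-, n2, n3, -, n5, -, n7, n8, n9, -⟩ := hN4
  intro F hF hFid hEH a₀ ha₀
  obtain ⟨b₁, hb₁W, hb₁q, hb₁⟩ := exbcW hF W q a₀ hW0 hWsq hqW ha₀
  obtain ⟨b, hbd⟩ : ∃ b, b = W + b₁ := ⟨_, rfl⟩
  have hb2 : b ∈ Finset.range (2 * W) := by rw [mem_range]; omega
  have hb : ∀ p : ℕ, p.Prime → p ∣ W → ¬ (p : ℤ) ∣ F b := by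
    intro p hp hpW h
    apply hb₁ p hp hpW
    refine (per_mod hF.per hp b b₁ ?_).1 h
    rw [hbd]
    have : W ≡ 0 [MOD p] := (Nat.modEq_zero_iff_dvd).2 hpW
    simpa using this.add_right b₁
  obtain ⟨M, hM⟩ : ∃ M : ℕ, M = (N + r) / W := ⟨_, rfl⟩
  obtain ⟨L, hL⟩ : ∃ L : ℕ, L = N / (2 * W) := ⟨_, rfl⟩
  rw [← hM, ← hL] at n5
  rw [← hL] at n7 n8 n9
  have hNr : (16 : ℝ) ≤ N := by exact_mod_cast n2
  have hN0 : (0 : ℝ) < N := by linarith
  have hN1r : (1 : ℝ) ≤ N := by linarith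
  obtain ⟨z, hz⟩ : ∃ z : ℕ, z + 1 = ⌈(N : ℝ) ^ ε₁⌉₊ := by
    have : 1 ≤ ⌈(N : ℝ) ^ ε₁⌉₊ := Nat.ceil_pos.2 (by positivity)
    exact ⟨⌈(N : ℝ) ^ ε₁⌉₊ - 1, by omega⟩
  have hz1 : (z : ℝ) < (N : ℝ) ^ ε₁ := by
    have h1 := Nat.ceil_lt_add_one (show 0 ≤ (N : ℝ) ^ ε₁ by positivity)
    rw [← hz] at h1
    push_cast at h1
    linarith
  have hz2 : (N : ℝ) ^ ε₁ ≤ z + 1 := by
    have h1 := Nat.le_ceil ((N : ℝ) ^ ε₁)
    rw [← hz] at h1
    push_cast at h1
    exact h1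
  obtain ⟨hgd, hV0, hV1⟩ := hN1 b hb2 F hF hFid hb M L z n5 hz1 hz2
  have hWL1 : 1 ≤ W * L := by
    have h1 : (1 : ℝ) ≤ ((W * L : ℕ) : ℝ) := le_trans (Real.one_le_rpow hN1r (by norm_num)) n7
    exact_mod_cast h1
  have hL1 : 1 ≤ L := by
    rcases Nat.eq_zero_or_pos L with h | h
    · rw [h, mul_zero] at hWL1
      omega
    · exact h
  have hLr : (0 : ℝ) < L := by exact_mod_cast hL1
  have hW0r : (0 : ℝ) < W := by exact_mod_cast hW0
  obtain ⟨Hs, T, hHs, hA1, hA2⟩ := manyP F W b M L z N k m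
    (2 * (g * 2 ^ k) + 1) ε₁ c (Vp F W b z t) t E' (fun y => b - r + y) hc hV0
    hLr hz1 hgd (fun y hy s hs => hN2 b hb2 y hy F hF (by
      intro j
      rw [hE', mem_filter] at hy
      have e : ((W * t j + b : ℕ) : ℤ) - ((b - r + y : ℕ) : ℤ) = ((W * t j + r : ℕ) : ℤ) - y := by
        have : r ≤ b := by omega
        push_cast [this]
        ring
      rw [e]
      exact hEH _ (hmem j) y hy.1 (fun h => hy.2 j h.symm)) M L z n5 hz1 hV0 hV1 s hs)
  have hWM : W * M ≤ N + r := by rw [hM]; exact Nat.mul_div_le _ _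
  have hWM1 : N + r < W * (M + 1) := by
    rw [hM]
    exact Nat.lt_mul_div_succ (N + r) hW0
  have hWM2 : W * (M + 1) = W * M + W := by ring
  have hWML : W * (M + L) = W * M + W * L := by ring
  have hbds : ∀ K ∈ Ioc M (M + L), N + r < W * K ∧ W * K + b ≤ N + r + W * L + b := by
    intro K hK
    rw [mem_Ioc] at hK
    have h2 : W * (M + 1) ≤ W * K := Nat.mul_le_mul_left _ (by omega)
    have h3 : W * K ≤ W * (M + L) := Nat.mul_le_mul_left _ hK.2
    exact ⟨by omega, by omega⟩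
  refine ⟨Hs.image (fun i => W * t i + r), ?_, ?_, T.image (fun K => W * K + b - r), ?_, ?_⟩
  · intro h hh
    rw [mem_image] at hh
    obtain ⟨i, _, rfl⟩ := hh
    exact hmem i
  · rw [card_image_of_injective _ (fun i j hij => by
      have h1 : W * t i + r = W * t j + r := hij
      have h2 : W * t i = W * t j := by omega
      exact ht (Nat.eq_of_mul_eq_mul_left hW0 h2))]
    exact hHs
  · -- the count
    rw [card_image_of_injective _ (fun K K' hKK => by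
      have h1 : W * K + b - r = W * K' + b - r := hKK
      have h2 : W * K = W * K' := by omega
      exact Nat.eq_of_mul_eq_mul_left hW0 h2)]
    obtain ⟨-, -, -, w4, -⟩ := n5
    have w4r : (N : ℝ) ≤ 8 * (W * L) := by exact_mod_cast w4
    obtain ⟨X, hX⟩ : ∃ X : ℝ, X = Real.log N ^ (2 * (g * 2 ^ k) + 1) := ⟨_, rfl⟩
    have hlN : 0 < Real.log N := Real.log_pos (by linarith)
    have hX0 : 0 < X := by rw [hX]; positivity
    rw [← hX] at hV1
    have h1 : (L : ℝ) ≤ X * (L * Vp F W b z t) := by nlinarith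
    have h2 : c / (2 * 2 ^ 2 ^ k) * L ≤ X * T.card := by
      have h3 := mul_le_mul_of_nonneg_left hA1 hX0.le
      have h4 := mul_le_mul_of_nonneg_left h1 (show 0 ≤ c / (2 * 2 ^ 2 ^ k) by positivity)
      linarith
    have h5 : c * N ≤ 16 * W * 2 ^ 2 ^ k * (X * T.card) := by
      have h6 : c * L ≤ 2 * 2 ^ 2 ^ k * (X * T.card) := by
        rw [div_mul_eq_mul_div, div_le_iff₀ (by positivity)] at h2
        linarith
      have h7 := mul_le_mul_of_nonneg_left h6 (show (0 : ℝ) ≤ 8 * W by positivity)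
      have h8 := mul_le_mul_of_nonneg_left w4r hc.le
      linarith
    have h9 : 16 * W * 2 ^ 2 ^ k ≤ Real.log N * c := by
      rwa [div_le_iff₀ hc] at hN3
    have h10 : c * N ≤ c * (Real.log N * (X * T.card)) := by
      have := mul_le_mul_of_nonneg_right h9 (show 0 ≤ X * T.card by positivity)
      linarith
    have h11 := le_of_mul_le_mul_left h10 hc
    refine h11.trans (le_of_eq ?_)
    rw [hX, pow_succ (Real.log (N : ℝ)) (2 * (g * 2 ^ k) + 1)]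
    ring
  · intro n hn
    rw [mem_image] at hn
    obtain ⟨K, hK, hKn⟩ := hn
    obtain ⟨hK1', hK2', hK3', hK4'⟩ := hA2 K hK
    have hbK := hbds K hK1'
    have e : ∀ i, n + (W * t i + r) = W * (K + t i) + b := by
      intro i
      have h1 : W * (K + t i) = W * K + W * t i := by ring
      omega
    refine ⟨by omega, by omega, ?_, ?_, ?_⟩
    · intro h hh
      rw [mem_image] at hh
      obtain ⟨i, hi, rfl⟩ := hh
      rw [e i]
      refine ⟨(hK3' i).2 hi, ?_⟩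
      have h1 : W * (K + t i) ≡ 0 [MOD q] := (Nat.modEq_zero_iff_dvd).2 (hqW.mul_right _)
      have h2 : W ≡ 0 [MOD q] := (Nat.modEq_zero_iff_dvd).2 hqW
      have h3 := (h1.add (h2.add hb₁q))
      rw [hbd]
      simpa using h3
    · intro h hh p hp hpd
      obtain ⟨i, rfl⟩ := hall h hh
      rw [e i] at hpd
      by_contra hcon
      push Not at hcon
      exact hK2' p hp hcon i hpd
    · intro y hy hyH
      by_cases hyE : y ∈ E'
      · have h1 := hK4' y hyE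
        have e2 : n + y = W * K + (b - r + y) := by
          have : r ≤ b := by omega
          omega
        rw [e2]
        exact h1
      · rw [hE', mem_filter] at hyE
        push Not at hyE
        obtain ⟨i, hi⟩ := hyE hy
        rw [← hi, e i]
        intro hpr
        apply hyH
        rw [mem_image]
        exact ⟨i, (hK3' i).1 hpr, hi⟩

end Pool.Agent.U163.SV
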